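import Pool.Agent.H752.PG.Stubs
import Pool.Agent.H620R2.Gauge.A2

/-! P4: the fixed generator is computable. -/

set_option autoImplicit false

namespace Pool.Agent.H752.PG

open Pool.Agent.NPC Pool.Agent.H620R2.Gauge Finset H568R2 MeasureTheory

theorem P4_rep {α : Type} [TEnc α] {n : α → ℕ} (hn : UPoly n) :
    NPC.Poly (fun a => List.replicate (n a) true) := by
  have h : NPC.Poly (fun a => (List.replicate (n a) ()).map (fun _ => true)) :=
    NPC.Poly.map (F := fun _ _ => true) hn (NPC.Poly.const true)
  refine h.congr fun a => ?_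
  rw [List.map_replicate]

theorem P4_log (m : ℕ) : Nat.log 2 m + 1 = max m.bits.length 1 := by
  rw [Nat.size_eq_bits_len]
  rcases Nat.eq_zero_or_pos m with rfl | hm
  · simp
  · have h1 : m.size = Nat.log 2 m + 1 := by
      apply le_antisymm
      · rw [Nat.size_le]
        exact Nat.lt_pow_succ_log_self (by norm_num) m
      · rw [Nat.succ_le_iff, Nat.lt_size]
        exact Nat.pow_log_le_self 2 (by omega)
    omega

theorem P4_dd (c : ℕ) : UPoly (fun x : List Bool => dd c x.length) := by
  unfold dd
  refine UPoly.mul (UPoly.const c) ?_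
  refine UPoly.of_le (n := fun x : List Bool => x.length + 1) ?_
    (UPoly.add (UPoly.length NPC.Poly.id) (UPoly.const 1)) ?_
  · refine (NPC.Poly.max (NPC.Poly.length (NPC.Poly.natBits (NPC.Poly.length (NPC.Poly.id (α := List Bool)))))
      (NPC.Poly.const 1)).congr fun x => ?_
    exact (P4_log x.length).symm
  · intro x
    have : Nat.log 2 x.length ≤ x.length := Nat.log_le_self 2 _
    omega

theorem P4_poly {A : Oracle} {f : List Bool → List Bool} (hf : NPC.Poly f) : IsFP A f :=
  IsFP.tt (A := A) (Q := fun _ => []) (H := fun p => f p.1) (NPC.Poly.const [])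
    (hf.comp (NPC.Poly.fst NPC.Poly.id))

theorem P4_gen (A : Oracle) : IsFP A (gen A) := by
  have h1 : NPC.Poly (fun z : List Bool => (unpair z).1) := NPC.Poly.fst poly_unpair
  have h2 : NPC.Poly (fun z : List Bool => (unpair z).2) := NPC.Poly.snd poly_unpair
  have hi : UPoly (fun p : List Bool × ℕ => min p.2 (unpair p.1).1.length) :=
    UPoly.of_le (NPC.Poly.min (NPC.Poly.snd NPC.Poly.id) (NPC.Poly.length (h1.comp (NPC.Poly.fst NPC.Poly.id))))
      (UPoly.length (h1.comp (NPC.Poly.fst NPC.Poly.id))) (fun p => min_le_right _ _)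
  have hm : UPoly (fun p : List Bool × ℕ => (unpair p.1).1.length + 1) :=
    UPoly.add (UPoly.length (h1.comp (NPC.Poly.fst NPC.Poly.id))) (UPoly.const 1)
  have hF : NPC.Poly (fun p : List Bool × ℕ =>
      gq (unpair p.1).1.length (unpair p.1).2 (min p.2 (unpair p.1).1.length)) := by
    unfold gq
    exact NPC.Poly.append (P4_rep hm) (NPC.Poly.cons (NPC.Poly.const false)
      (Pool.Agent.H622R2.poly_pairBits (h2.comp (NPC.Poly.fst NPC.Poly.id)) (P4_rep hi)))
  have hQ : NPC.Poly (fun z : List Bool => (List.range (unpair z).1.length).map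
      (fun i => gq (unpair z).1.length (unpair z).2 (min i (unpair z).1.length))) :=
    NPC.Poly.map (F := fun z i => gq (unpair z).1.length (unpair z).2 (min i (unpair z).1.length))
      (NPC.Poly.range_length h1) hF
  obtain ⟨M, hM⟩ := IsFP.tt (A := A) hQ (H := fun p => p.2) (NPC.Poly.snd NPC.Poly.id)
  refine ⟨M, fun z => ?_⟩
  rw [hM z]
  congr 1
  unfold gen
  simp only [List.map_map]
  apply List.map_congr_left
  intro i hi
  rw [List.mem_range] at hi
  simp only [Function.comp]
  rw [min_eq_left hi.le]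

theorem t_gen : St_gen := by
  intro A c
  refine ⟨P4_poly (P4_rep (P4_dd c)), P4_gen A, ?_, ?_⟩
  · intro m s
    unfold gen
    rw [unpair_pairBits]
    simp
  · have h1 := Real.isLittleO_log_id_atTop.bound
      (show (0 : ℝ) < Real.log 2 / (4 * c + 4) by
        have := Real.log_pos (by norm_num : (1 : ℝ) < 2)
        positivity)
    have h2 := (tendsto_natCast_atTop_atTop (R := ℝ)).eventually h1
    filter_upwards [h2, Filter.eventually_ge_atTop 2] with m hm hm2
    have hl2 := Real.log_pos (by norm_num : (1 : ℝ) < 2)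
    have hm0 : (2 : ℝ) ≤ m := by exact_mod_cast hm2
    have e1 : (1 : ℝ) ≤ Real.logb 2 m := by
      rw [Real.le_logb_iff_rpow_le (by norm_num) (by linarith)]
      simpa using hm0
    have e2 : (Nat.log 2 m : ℝ) ≤ Real.logb 2 m := by
      rw [Real.le_logb_iff_rpow_le (by norm_num) (by linarith), Real.rpow_natCast]
      exact_mod_cast Nat.pow_log_le_self 2 (by omega)
    have e3 : (dd c m : ℝ) ≤ (2 * c : ℕ) * Real.logb 2 m := by
      unfold dd
      push_cast
      have hc : (0 : ℝ) ≤ c := Nat.cast_nonneg c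
      nlinarith
    refine ⟨e3, ?_⟩
    have e4 : Real.log m ≤ Real.log 2 / (4 * c + 4) * m := by
      have : ‖Real.log (m : ℝ)‖ ≤ Real.log 2 / (4 * c + 4) * ‖((m : ℝ))‖ := hm
      rw [Real.norm_eq_abs, Real.norm_eq_abs, abs_of_nonneg (by linarith : (0 : ℝ) ≤ m)] at this
      exact (le_abs_self _).trans this
    have e5 : Real.logb 2 m ≤ m / (4 * c + 4) := by
      unfold Real.logb
      rw [div_le_iff₀ hl2]
      calc Real.log m ≤ Real.log 2 / (4 * c + 4) * m := e4
        _ = m / (4 * c + 4) * Real.log 2 := by ring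
    have e6 : (dd c m : ℝ) < m := by
      have hc : (0 : ℝ) ≤ c := Nat.cast_nonneg c
      calc (dd c m : ℝ) ≤ (2 * c : ℕ) * Real.logb 2 m := e3
        _ ≤ (2 * c : ℕ) * (m / (4 * c + 4)) :=
          mul_le_mul_of_nonneg_left e5 (Nat.cast_nonneg _)
        _ = m * ((2 * c) / (4 * c + 4)) := by push_cast; ring
        _ < m * 1 := by
          apply mul_lt_mul_of_pos_left _ (by linarith)
          rw [div_lt_one (by positivity)]
          linarith
        _ = m := mul_one _
    exact_mod_cast e6

end Pool.Agent.H752.PG
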